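import Pool.Agent.H23.PL.Targets

/-!
# The logarithm trick
-/

set_option autoImplicit false

open Finset Polynomial Pool.Agent.H23.PL

namespace Pool.Agent.H30.PL

/-- the factorial is the product -/
lemma lg_fact (n : ℕ) : ∏ r ∈ Icc 1 n, r = n.factorial := by
  induction n with
  | zero => simp
  | succ k ih => rw [Finset.prod_Icc_succ_top (by omega), ih, Nat.factorial_succ, mul_comm]

/-- the logarithm of the factorial -/
lemma lg_first (n : ℕ) (hn : 1 ≤ n) :
    ∑ r ∈ Icc 1 n, (Real.log n - Real.log r) ≤ n := by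
  have h := Real.pow_div_factorial_le_exp (n : ℝ) (by positivity) n
  have hn' : (0 : ℝ) < n := by exact_mod_cast hn
  have hf : (0 : ℝ) < (n.factorial : ℝ) := by exact_mod_cast n.factorial_pos
  have h2 := Real.log_le_log (by positivity) h
  rw [Real.log_exp, Real.log_div (by positivity) hf.ne', Real.log_pow] at h2
  have h3 : Real.log (n.factorial : ℝ) = ∑ r ∈ Icc 1 n, Real.log (r : ℝ) := by
    rw [← lg_fact n, Nat.cast_prod, Real.log_prod]
    intro r hr
    have := (Finset.mem_Icc.1 hr).1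
    positivity
  rw [Finset.sum_sub_distrib, ← h3]
  simpa using h2

/-- the sum of the valuations -/
lemma lg_val (p n : ℕ) (hp : p.Prime) :
    ((p : ℝ) - 1) * ∑ r ∈ Icc 1 n, (r.factorization p : ℝ) ≤ n := by
  have h1 : (∏ r ∈ Icc 1 n, r).factorization = ∑ r ∈ Icc 1 n, r.factorization :=
    Nat.factorization_prod (g := fun r => r) (by
      intro r hr
      have := (Finset.mem_Icc.1 hr).1
      show r ≠ 0
      omega)
  have h2 : (n.factorial).factorization p = ∑ r ∈ Icc 1 n, r.factorization p := by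
    rw [← lg_fact n, h1, Finsupp.finsetSum_apply]
  have : Fact p.Prime := ⟨hp⟩
  have h3 := sub_one_mul_padicValNat_factorial (p := p) n
  have h4 : (p - 1) * ∑ r ∈ Icc 1 n, r.factorization p ≤ n := by
    rw [← h2, Nat.factorization_def _ hp, h3]
    omega
  have h5 : (((p - 1) * ∑ r ∈ Icc 1 n, r.factorization p : ℕ) : ℝ) ≤ n := by
    exact_mod_cast h4
  rw [Nat.cast_mul, Nat.cast_sub hp.one_le, Nat.cast_sum] at h5
  simpa using h5

/-- the multiples of `p` -/
lemma lg_mult (p x : ℕ) (hp : p.Prime) (f : ℕ → ℝ) :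
    ∑ r ∈ (Icc 1 x).filter (p ∣ ·), f r = ∑ m ∈ Icc 1 (x / p), f (m * p) := by
  symm
  refine Finset.sum_bij (fun m _ => m * p) ?_ ?_ ?_ ?_
  · intro m hm
    rw [Finset.mem_Icc] at hm
    rw [Finset.mem_filter, Finset.mem_Icc]
    refine ⟨⟨?_, ?_⟩, Dvd.intro_left m rfl⟩
    · exact Nat.mul_pos hm.1 hp.pos
    · exact (Nat.le_div_iff_mul_le hp.pos).1 hm.2
  · intro a _ b _ hab
    exact Nat.eq_of_mul_eq_mul_right hp.pos hab
  · intro r hr
    rw [Finset.mem_filter, Finset.mem_Icc] at hr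
    obtain ⟨⟨h1, h2⟩, k, rfl⟩ := hr
    refine ⟨k, ?_, by ring⟩
    rw [Finset.mem_Icc]
    refine ⟨?_, ?_⟩
    · rcases Nat.eq_zero_or_pos k with h | h
      · subst h
        simp at h1
      · exact h
    · rw [Nat.le_div_iff_mul_le hp.pos, mul_comm]
      exact h2
  · intro m _
    rfl

open Classical in
/-- LGT -/
theorem pf_LGT (hMR1 : T_MR1) (hCHB : T_CHB) : T_LGT := by
  obtain ⟨C1, hC1, h1⟩ := hMR1
  obtain ⟨C2, hC2, h2⟩ := hCHB
  have hsum : Summable (fun n : ℕ => 4 * ((n : ℝ) ^ (3 / 2 : ℝ))⁻¹) := by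
    apply Summable.mul_left
    exact Real.summable_nat_rpow_inv.2 (by norm_num)
  set C3 : ℝ := ∑' n : ℕ, 4 * ((n : ℝ) ^ (3 / 2 : ℝ))⁻¹ with hC3
  have hC3' : 0 ≤ C3 := tsum_nonneg (fun n => by positivity)
  refine ⟨1 + (1 + C1) + C3 + C2, by positivity, ?_⟩
  intro A x y hy hx hA
  set A' := (Icc 1 x).filter (· ∈ A) with hA'
  set Pr := (Icc 1 x).filter Nat.Prime with hPr
  have hx0 : (0 : ℝ) < x := by exact_mod_cast hx
  have hly : 0 ≤ Real.log y := Real.log_nonneg hy
  -- the first sum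
  have hf : ∑ r ∈ A', (Real.log x - Real.log r) ≤ x := by
    refine le_trans ?_ (lg_first x hx)
    refine Finset.sum_le_sum_of_subset_of_nonneg (Finset.filter_subset _ _) ?_
    intro r hr _
    rw [Finset.mem_Icc] at hr
    have : Real.log r ≤ Real.log x := by
      apply Real.log_le_log
      · exact_mod_cast hr.1
      · exact_mod_cast hr.2
    linarith
  -- the logarithm
  have hlog : ∀ r ∈ A', Real.log r = ∑ p ∈ Pr, (r.factorization p : ℝ) * Real.log p := by
    intro r hr
    rw [hA', Finset.mem_filter, Finset.mem_Icc] at hr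
    rw [Real.log_nat_eq_sum_factorization, Finsupp.sum]
    refine Finset.sum_subset ?_ ?_
    · intro p hp
      rw [Nat.support_factorization, Nat.mem_primeFactors] at hp
      rw [hPr, Finset.mem_filter, Finset.mem_Icc]
      exact ⟨⟨hp.1.one_le, le_trans (Nat.le_of_dvd (by omega) hp.2.1) hr.1.2⟩, hp.1⟩
    · intro p _ hp
      rw [Finsupp.notMem_support_iff] at hp
      rw [hp]
      simp
  have hsw : ∑ r ∈ A', Real.log r = ∑ p ∈ Pr, Real.log p * ∑ r ∈ A', (r.factorization p : ℝ) := by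
    rw [Finset.sum_congr rfl hlog, Finset.sum_comm]
    refine Finset.sum_congr rfl fun p _ => ?_
    rw [Finset.mul_sum]
    exact Finset.sum_congr rfl fun r _ => mul_comm _ _
  -- small primes
  have hsm : ∑ p ∈ Pr.filter (fun p : ℕ => (p : ℝ) ≤ y),
      Real.log p * ∑ r ∈ A', (r.factorization p : ℝ) ≤ x * (Real.log y + C1) := by
    calc ∑ p ∈ Pr.filter (fun p : ℕ => (p : ℝ) ≤ y),
          Real.log p * ∑ r ∈ A', (r.factorization p : ℝ)
        ≤ ∑ p ∈ Pr.filter (fun p : ℕ => (p : ℝ) ≤ y), x * (Real.log p / ((p : ℝ) - 1)) := by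
          refine Finset.sum_le_sum fun p hp => ?_
          rw [Finset.mem_filter, hPr, Finset.mem_filter] at hp
          have hpp := hp.1.2
          have hp1 : (1 : ℝ) < p := by exact_mod_cast hpp.one_lt
          have h5 := lg_val p x hpp
          have h6 : ∑ r ∈ A', (r.factorization p : ℝ) ≤ ∑ r ∈ Icc 1 x, (r.factorization p : ℝ) :=
            Finset.sum_le_sum_of_subset_of_nonneg (Finset.filter_subset _ _)
              (fun _ _ _ => by positivity)
          have h7 : ∑ r ∈ Icc 1 x, (r.factorization p : ℝ) ≤ x / ((p : ℝ) - 1) := by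
            rw [le_div_iff₀ (by linarith)]
            linarith
          have hl : 0 ≤ Real.log p := Real.log_nonneg hp1.le
          calc Real.log p * ∑ r ∈ A', (r.factorization p : ℝ)
              ≤ Real.log p * (x / ((p : ℝ) - 1)) :=
                mul_le_mul_of_nonneg_left (h6.trans h7) hl
            _ = x * (Real.log p / ((p : ℝ) - 1)) := by ring
      _ ≤ ∑ p ∈ PR 0 y, x * (Real.log p / ((p : ℝ) - 1)) := by
          refine Finset.sum_le_sum_of_subset_of_nonneg ?_ ?_
          · intro p hp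
            rw [Finset.mem_filter, hPr, Finset.mem_filter] at hp
            rw [PR, Finset.mem_filter, Finset.mem_Ioc]
            refine ⟨⟨?_, Nat.le_floor hp.2⟩, hp.1.2⟩
            simpa using hp.1.2.pos
          · intro p hp _
            rw [PR, Finset.mem_filter] at hp
            have hp1 : (1 : ℝ) < p := by exact_mod_cast hp.2.one_lt
            have hl : 0 ≤ Real.log p := Real.log_nonneg hp1.le
            have : (0 : ℝ) < (p : ℝ) - 1 := by linarith
            positivity
      _ = x * ∑ p ∈ PR 0 y, Real.log p / ((p : ℝ) - 1) := by rw [Finset.mul_sum]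
      _ ≤ x * (Real.log y + C1) := mul_le_mul_of_nonneg_left (h1 y hy) hx0.le
  -- large primes
  have hval : ∀ p ∈ Pr, y < (p : ℝ) → ∑ r ∈ A', (r.factorization p : ℝ) ≤
      (x : ℝ) / p / ((p : ℝ) - 1) + ∑ m ∈ A', if m * p ≤ x then (1 : ℝ) else 0 := by
    intro p hp hyp
    rw [hPr, Finset.mem_filter] at hp
    have hpp := hp.2
    have hp0 : (0 : ℝ) < p := by exact_mod_cast hpp.pos
    have hp1 : (1 : ℝ) < p := by exact_mod_cast hpp.one_lt
    have e1 : ∑ r ∈ A', (r.factorization p : ℝ) =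
        ∑ r ∈ (Icc 1 x).filter (p ∣ ·), if r ∈ A then (r.factorization p : ℝ) else 0 := by
      rw [hA', ← Finset.sum_filter, Finset.filter_filter]
      symm
      refine Finset.sum_subset ?_ ?_
      · intro r hr
        rw [Finset.mem_filter] at hr ⊢
        exact ⟨hr.1, hr.2.2⟩
      · intro r hr hr2
        rw [Finset.mem_filter] at hr hr2
        have : ¬ p ∣ r := fun h => hr2 ⟨hr.1, h, hr.2⟩
        rw [Nat.factorization_eq_zero_of_not_dvd this]
        simp
    have e2 : ∀ m ∈ Icc 1 (x / p), (if m * p ∈ A then ((m * p).factorization p : ℝ) else 0) ≤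
        (m.factorization p : ℝ) + if m ∈ A then (1 : ℝ) else 0 := by
      intro m hm
      rw [Finset.mem_Icc] at hm
      have hm0 : m ≠ 0 := by omega
      have h3 := hA m p hm.1 hpp hyp
      have h4 : (m * p).factorization p = m.factorization p + 1 := by
        rw [Nat.factorization_mul hm0 hpp.ne_zero, Finsupp.add_apply,
          hpp.factorization_self]
      by_cases h : m ∈ A
      · rw [if_pos (h3.2 h), if_pos h, h4]
        push_cast
        exact le_refl _
      · rw [if_neg (fun h5 => h (h3.1 h5)), if_neg h]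
        positivity
    have e3 : ∑ m ∈ Icc 1 (x / p), (m.factorization p : ℝ) ≤ (x : ℝ) / p / ((p : ℝ) - 1) := by
      rw [le_div_iff₀ (by linarith)]
      have h5 := lg_val p (x / p) hpp
      have h6 : ((x / p : ℕ) : ℝ) ≤ (x : ℝ) / p := Nat.cast_div_le
      linarith
    have e4 : ∑ m ∈ Icc 1 (x / p), (if m ∈ A then (1 : ℝ) else 0) ≤
        ∑ m ∈ A', if m * p ≤ x then (1 : ℝ) else 0 := by
      rw [← Finset.sum_filter, ← Finset.sum_filter]
      refine Finset.sum_le_sum_of_subset_of_nonneg ?_ (fun _ _ _ => zero_le_one)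
      intro m hm
      rw [Finset.mem_filter, Finset.mem_Icc] at hm
      rw [Finset.mem_filter, hA', Finset.mem_filter, Finset.mem_Icc]
      have h7 : m * p ≤ x := (Nat.le_div_iff_mul_le hpp.pos).1 hm.1.2
      exact ⟨⟨⟨hm.1.1, le_trans (Nat.le_mul_of_pos_right m hpp.pos) h7⟩, hm.2⟩, h7⟩
    calc ∑ r ∈ A', (r.factorization p : ℝ)
        = ∑ m ∈ Icc 1 (x / p), (if m * p ∈ A then ((m * p).factorization p : ℝ) else 0) := by
          rw [e1, lg_mult p x hpp]
      _ ≤ ∑ m ∈ Icc 1 (x / p), ((m.factorization p : ℝ) + if m ∈ A then (1 : ℝ) else 0) :=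
          Finset.sum_le_sum e2
      _ = ∑ m ∈ Icc 1 (x / p), (m.factorization p : ℝ) +
          ∑ m ∈ Icc 1 (x / p), (if m ∈ A then (1 : ℝ) else 0) := Finset.sum_add_distrib
      _ ≤ _ := add_le_add e3 e4
  have hq : ∀ p : ℕ, p.Prime → Real.log p * ((x : ℝ) / p / ((p : ℝ) - 1)) ≤
      x * (4 * ((p : ℝ) ^ (3 / 2 : ℝ))⁻¹) := by
    intro p hpp
    have hp0 : (0 : ℝ) < p := by exact_mod_cast hpp.pos
    have hp2 : (2 : ℝ) ≤ p := by exact_mod_cast hpp.two_le
    have h3 : Real.log p ≤ 2 * (p : ℝ) ^ (1 / 2 : ℝ) := by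
      have := Real.log_le_rpow_div hp0.le (ε := 1 / 2) (by norm_num)
      linarith
    have h4 : (p : ℝ) ^ (3 / 2 : ℝ) = p * (p : ℝ) ^ (1 / 2 : ℝ) := by
      rw [show (3 / 2 : ℝ) = 1 + 1 / 2 by norm_num, Real.rpow_add hp0, Real.rpow_one]
    have h5 : 0 < (p : ℝ) ^ (1 / 2 : ℝ) := Real.rpow_pos_of_pos hp0 _
    have h6 : (p : ℝ) ^ (1 / 2 : ℝ) * (p : ℝ) ^ (1 / 2 : ℝ) = p := by
      rw [← Real.rpow_add hp0]
      norm_num
    have h7 : (0 : ℝ) < (p : ℝ) - 1 := by linarith
    rw [h4, mul_inv]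
    have h8 : ((p : ℝ) ^ (1 / 2 : ℝ))⁻¹ = (p : ℝ) ^ (1 / 2 : ℝ) / p := by
      rw [inv_eq_one_div, div_eq_div_iff h5.ne' hp0.ne', one_mul]
      exact h6.symm
    rw [h8]
    have h9 : Real.log p * ((x : ℝ) / p / ((p : ℝ) - 1)) ≤
        (2 * (p : ℝ) ^ (1 / 2 : ℝ)) * ((x : ℝ) / p / (p / 2)) := by
      apply mul_le_mul h3 _ (by positivity) (by positivity)
      apply div_le_div_of_nonneg_left (by positivity) (by positivity)
      linarith
    refine h9.trans (le_of_eq ?_)
    field_simp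
    ring
  have hlg : ∑ p ∈ Pr.filter (fun p : ℕ => ¬ (p : ℝ) ≤ y),
      Real.log p * ∑ r ∈ A', (r.factorization p : ℝ) ≤
      x * C3 + C2 * x * ∑ m ∈ A', 1 / (m : ℝ) := by
    have k1 : ∀ p ∈ Pr.filter (fun p : ℕ => ¬ (p : ℝ) ≤ y),
        Real.log p * ∑ r ∈ A', (r.factorization p : ℝ) ≤
        x * (4 * ((p : ℝ) ^ (3 / 2 : ℝ))⁻¹) +
          ∑ m ∈ A', (if m * p ≤ x then Real.log p else 0) := by
      intro p hp
      rw [Finset.mem_filter] at hp
      have hpp : p.Prime := by
        have := hp.1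
        rw [hPr, Finset.mem_filter] at this
        exact this.2
      have hl : 0 ≤ Real.log p := Real.log_nonneg (by exact_mod_cast hpp.one_le)
      have h3 := mul_le_mul_of_nonneg_left (hval p hp.1 (not_le.1 hp.2)) hl
      rw [mul_add] at h3
      refine h3.trans (add_le_add (hq p hpp) (le_of_eq ?_))
      rw [Finset.mul_sum]
      refine Finset.sum_congr rfl fun m _ => ?_
      split_ifs <;> simp
    have k2 : ∑ p ∈ Pr.filter (fun p : ℕ => ¬ (p : ℝ) ≤ y),
        x * (4 * ((p : ℝ) ^ (3 / 2 : ℝ))⁻¹) ≤ x * C3 := by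
      rw [← Finset.mul_sum]
      exact mul_le_mul_of_nonneg_left
        (hsum.sum_le_tsum _ (fun n _ => by positivity)) hx0.le
    have k3 : ∑ p ∈ Pr.filter (fun p : ℕ => ¬ (p : ℝ) ≤ y),
        ∑ m ∈ A', (if m * p ≤ x then Real.log p else 0) ≤ C2 * x * ∑ m ∈ A', 1 / (m : ℝ) := by
      rw [Finset.sum_comm, Finset.mul_sum]
      refine Finset.sum_le_sum fun m hm => ?_
      rw [hA', Finset.mem_filter, Finset.mem_Icc] at hm
      have hm0 : (0 : ℝ) < m := by exact_mod_cast hm.1.1
      rw [← Finset.sum_filter]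
      calc ∑ p ∈ (Pr.filter (fun p : ℕ => ¬ (p : ℝ) ≤ y)).filter (fun p => m * p ≤ x), Real.log p
          ≤ ∑ p ∈ PR 0 ((x : ℝ) / m), Real.log p := by
            refine Finset.sum_le_sum_of_subset_of_nonneg ?_ ?_
            · intro p hp
              rw [Finset.mem_filter, Finset.mem_filter, hPr, Finset.mem_filter] at hp
              rw [PR, Finset.mem_filter, Finset.mem_Ioc]
              refine ⟨⟨?_, Nat.le_floor ?_⟩, hp.1.1.2⟩
              · simpa using hp.1.1.2.pos
              · rw [le_div_iff₀ hm0]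
                have := hp.2
                rw [mul_comm] at this
                exact_mod_cast this
            · intro p hp _
              rw [PR, Finset.mem_filter] at hp
              exact Real.log_nonneg (by exact_mod_cast hp.2.one_le)
        _ ≤ C2 * ((x : ℝ) / m) := h2 _ (by positivity)
        _ = C2 * x * (1 / (m : ℝ)) := by ring
    refine (Finset.sum_le_sum k1).trans ?_
    rw [Finset.sum_add_distrib]
    exact add_le_add k2 k3
  have htot : (A'.card : ℝ) * Real.log x ≤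
      x + (x * (Real.log y + C1) + (x * C3 + C2 * x * ∑ m ∈ A', 1 / (m : ℝ))) := by
    have : (A'.card : ℝ) * Real.log x =
        ∑ r ∈ A', (Real.log x - Real.log r) + ∑ r ∈ A', Real.log r := by
      rw [← Finset.sum_add_distrib]
      simp
    rw [this, hsw, ← Finset.sum_filter_add_sum_filter_not Pr (fun p : ℕ => (p : ℝ) ≤ y)]
    exact add_le_add hf (add_le_add hsm hlg)
  refine htot.trans ?_
  have hS : 0 ≤ ∑ m ∈ A', 1 / (m : ℝ) := Finset.sum_nonneg fun m _ => by positivity
  have hxS : 0 ≤ (x : ℝ) * ∑ m ∈ A', 1 / (m : ℝ) := mul_nonneg hx0.le hS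
  have hxy : 0 ≤ (x : ℝ) * Real.log y := mul_nonneg hx0.le hly
  nlinarith [mul_nonneg hC1.le hxy, mul_nonneg hC3' hxy, mul_nonneg hC2.le hxy,
    mul_nonneg hC1.le hxS, mul_nonneg hC3' hxS, mul_nonneg hC2.le hx0.le]

end Pool.Agent.H30.PL
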