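import Pool.Agent.H23.PL.Targets

/-!
# There is no narrow box of squares
-/

set_option autoImplicit false

open Finset Polynomial Pool.Agent.H23.PL

namespace Pool.Agent.H30.PL

/-- the products -/
lemma nb_prod (t : ℕ) (q : Fin t → Bool → ℕ) (c : ℕ) (hc : 0 < c) (ht : 1 ≤ t)
    (htc : 2 * t ≤ c) (h1 : ∀ l, q l false ≤ q l true)
    (h2 : ∀ l, c * (q l true - q l false) ≤ q l false) :
    (c : ℝ) * ((∏ l, (q l true : ℝ)) - ∏ l, (q l false : ℝ)) ≤
      2 * t * ∏ l, (q l false : ℝ) := by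
  have hc' : (0 : ℝ) < c := by exact_mod_cast hc
  have ht' : (1 : ℝ) ≤ t := by exact_mod_cast ht
  have htc' : 2 * (t : ℝ) ≤ c := by exact_mod_cast htc
  have hq : ∀ l, (q l true : ℝ) ≤ q l false * (1 + 1 / c) := by
    intro l
    have h3 : (c : ℝ) * ((q l true : ℝ) - q l false) ≤ q l false := by
      have := h2 l
      rw [← Nat.cast_sub (h1 l)]
      exact_mod_cast this
    have h4 : (q l true : ℝ) - q l false ≤ q l false / c := by
      rw [le_div_iff₀ hc']
      linarith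
    have h5 : (q l false : ℝ) * (1 + 1 / c) = q l false + q l false / c := by ring
    linarith
  have hP : ∏ l, (q l true : ℝ) ≤ (∏ l, (q l false : ℝ)) * (1 + 1 / c) ^ t := by
    calc ∏ l, (q l true : ℝ) ≤ ∏ l, ((q l false : ℝ) * (1 + 1 / c)) :=
          Finset.prod_le_prod (fun _ _ => by positivity) (fun l _ => hq l)
      _ = _ := by
          rw [Finset.prod_mul_distrib, Finset.prod_const, Finset.card_univ, Fintype.card_fin]
  set n0 : ℝ := ∏ l, (q l false : ℝ) with hn0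
  have hn0' : 0 ≤ n0 := Finset.prod_nonneg fun _ _ => by positivity
  set z : ℝ := t / c with hz
  have hz0 : 0 ≤ z := by positivity
  have hz1 : z ≤ 1 / 2 := by
    rw [hz, div_le_iff₀ hc']
    linarith
  have he : (1 + 1 / (c : ℝ)) ^ t ≤ Real.exp z := by
    have h3 : 1 + 1 / (c : ℝ) ≤ Real.exp (1 / c) := by
      have := Real.add_one_le_exp (1 / (c : ℝ))
      linarith
    calc (1 + 1 / (c : ℝ)) ^ t ≤ Real.exp (1 / c) ^ t :=
          pow_le_pow_left₀ (by positivity) h3 t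
      _ = Real.exp z := by
          rw [← Real.exp_nat_mul, hz]
          congr 1
          ring
  have h6 : Real.exp z * (1 - z) ≤ 1 := by
    have h7 : 1 - z ≤ Real.exp (-z) := by
      have := Real.add_one_le_exp (-z)
      linarith
    calc Real.exp z * (1 - z) ≤ Real.exp z * Real.exp (-z) :=
          mul_le_mul_of_nonneg_left h7 (Real.exp_pos z).le
      _ = 1 := by rw [← Real.exp_add]; simp
  have h8 : Real.exp z ≤ 1 + 2 * z := by
    have h9 : (1 : ℝ) ≤ (1 + 2 * z) * (1 - z) := by nlinarith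
    nlinarith [Real.exp_pos z]
  have h10 : ∏ l, (q l true : ℝ) ≤ n0 * (1 + 2 * z) :=
    hP.trans (mul_le_mul_of_nonneg_left (he.trans h8) hn0')
  have h11 : (c : ℝ) * z = t := by
    rw [hz]
    field_simp
  calc (c : ℝ) * ((∏ l, (q l true : ℝ)) - n0) ≤ c * (n0 * (1 + 2 * z) - n0) := by
        apply mul_le_mul_of_nonneg_left _ hc'.le
        linarith
    _ = 2 * (c * z) * n0 := by ring
    _ = 2 * t * n0 := by rw [h11]

/-- `log (1 + √2)` -/
lemma nb_al : Real.log 2 ≤ Real.log al ∧ 0 < al := by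
  have h : (1 : ℝ) ≤ √2 := by
    rw [show (1 : ℝ) = √1 by simp]
    exact Real.sqrt_le_sqrt (by norm_num)
  have h2 : (2 : ℝ) ≤ al := by
    rw [al]
    linarith
  exact ⟨Real.log_le_log (by norm_num) h2, by linarith⟩

/-- the final inequality -/
lemma nb_fin (m T E : ℝ) (hT : 1 ≤ T) (hm : 2000 * T ^ 3 ≤ m) (hE : 1 ≤ E) (hE2 : E ≤ m * T) :
    4 + 6 * E + (4 * E + 2) * Real.log (8 * E) < 127 / 100 * m ^ 2 := by
  have hT0 : 0 < T := by linarith
  have hm0 : 0 < m := by
    have : 0 < T ^ 3 := by positivity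
    linarith
  set s : ℝ := √(8 * E) with hs
  have hs2 : s * s = 8 * E := Real.mul_self_sqrt (by linarith)
  have hs0 : 0 < s := Real.sqrt_pos.2 (by linarith)
  have hl : Real.log (8 * E) ≤ 2 * (s - 1) := by
    rw [← hs2, Real.log_mul hs0.ne' hs0.ne']
    have := Real.log_le_sub_one_of_pos hs0
    linarith
  set w : ℝ := √(8 * (m * T)) with hw
  have hw2 : w * w = 8 * (m * T) := Real.mul_self_sqrt (by positivity)
  have hw0 : 0 < w := Real.sqrt_pos.2 (by positivity)
  have hsw : s ≤ w := Real.sqrt_le_sqrt (by linarith)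
  have hs1 : 2 ≤ s := by
    by_contra h
    push Not at h
    nlinarith
  have h1 : 4 + 6 * E + (4 * E + 2) * Real.log (8 * E) ≤ 12 * E * s := by
    have h2 : (4 * E + 2) * Real.log (8 * E) ≤ (4 * E + 2) * (2 * (s - 1)) :=
      mul_le_mul_of_nonneg_left hl (by linarith)
    have h3 : (4 * E + 2) * (2 * (s - 1)) ≤ 6 * E * (2 * (s - 1)) :=
      mul_le_mul_of_nonneg_right (by linarith) (by linarith)
    nlinarith
  have h4 : 12 * E * s ≤ 12 * (m * T) * w :=
    mul_le_mul (by linarith) hsw hs0.le (by positivity)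
  have h5 : 12 * T * w < 127 / 100 * m := by
    apply lt_of_pow_lt_pow_left₀ 2 (by positivity)
    have h6 : (12 * T * w) ^ 2 = 1152 * m * T ^ 3 := by
      have : (12 * T * w) ^ 2 = 144 * T ^ 2 * (w * w) := by ring
      rw [this, hw2]
      ring
    rw [h6]
    nlinarith [mul_le_mul_of_nonneg_left hm hm0.le]
  have h7 : 12 * (m * T) * w = m * (12 * T * w) := by ring
  have h8 : m * (12 * T * w) < m * (127 / 100 * m) := mul_lt_mul_of_pos_left h5 hm0
  have h9 : m * (127 / 100 * m) = 127 / 100 * m ^ 2 := by ring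
  linarith

/-- NBX -/
theorem pf_NBX (hBOX : T_BOX) : T_NBX := by
  intro t ht
  refine ⟨2000 * (2 ^ t) ^ 3, ?_⟩
  intro u L hPL m q hm hq hlt hcl hall
  have hT1 : 1 ≤ 2 ^ t := Nat.one_le_two_pow
  have hT3 : 1 ≤ (2 ^ t) ^ 3 := Nat.one_le_pow _ _ (by omega)
  have hm3 : 3 ≤ m := by omega
  have hmm : m ≤ m ^ 2 := Nat.le_self_pow (by norm_num) m
  have hB := hBOX u L hPL m t q hm3 ht (by
    intro l b
    obtain ⟨h1, h2⟩ := hq l b
    refine ⟨h1, h1.odd_of_ne_two (by omega), ?_⟩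
    intro h3
    have := Nat.le_of_dvd (by omega) h3
    omega) hlt hall
  set n0 := ∏ l, q l false with hn0
  set n1 := ∏ l, q l true with hn1
  set E := m.totient * 2 ^ (t - 1) with hE
  have hle : n0 ≤ n1 := Finset.prod_le_prod' fun l _ => (hlt l).le
  have hE1 : 1 ≤ E := by
    have h1 : 0 < m.totient := Nat.totient_pos.2 (by omega)
    have h2 : 0 < 2 ^ (t - 1) := by positivity
    exact Nat.mul_pos h1 h2
  have hE2 : E ≤ m * 2 ^ (t - 1) := Nat.mul_le_mul_right _ (Nat.totient_le m)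
  -- the difference
  have hc0 : 0 < 64 * t * 2 ^ t * m := by positivity
  have hpr := nb_prod t q (64 * t * 2 ^ t * m) hc0 ht (by
    have h1 : 1 ≤ 2 ^ t * m := Nat.mul_pos hT1 (by omega)
    calc 2 * t ≤ 64 * t * 1 := by omega
      _ ≤ 64 * t * (2 ^ t * m) := Nat.mul_le_mul_left _ h1
      _ = 64 * t * 2 ^ t * m := by ring) (fun l => (hlt l).le) hcl
  have e0 : ∏ l, (q l false : ℝ) = (n0 : ℝ) := by rw [hn0]; push_cast; rfl
  have e1 : ∏ l, (q l true : ℝ) = (n1 : ℝ) := by rw [hn1]; push_cast; rfl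
  rw [e0, e1] at hpr
  push_cast at hpr
  have ht' : (0 : ℝ) < t := by exact_mod_cast ht
  have hm' : (0 : ℝ) < m := by
    have : 0 < m := by omega
    exact_mod_cast this
  have hδ : 32 * 2 ^ t * (m : ℝ) * ((n1 : ℝ) - n0) ≤ n0 := by
    have h1 : (2 * (t : ℝ)) * (32 * 2 ^ t * (m : ℝ) * ((n1 : ℝ) - n0)) ≤ (2 * t) * n0 := by
      calc (2 * (t : ℝ)) * (32 * 2 ^ t * (m : ℝ) * ((n1 : ℝ) - n0))
          = 64 * t * 2 ^ t * m * ((n1 : ℝ) - n0) := by ring
        _ ≤ 2 * t * n0 := hpr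
    exact le_of_mul_le_mul_left h1 (by positivity)
  have hδ' : ((n1 - n0 : ℕ) : ℝ) = (n1 : ℝ) - n0 := Nat.cast_sub hle
  have h2t : (2 : ℝ) ^ t = 2 * 2 ^ (t - 1) := by
    rw [← pow_succ']
    congr 1
    omega
  have hEr : (E : ℝ) ≤ m * 2 ^ (t - 1) := by exact_mod_cast hE2
  have hEr1 : (1 : ℝ) ≤ E := by exact_mod_cast hE1
  have hd0 : 0 ≤ (n1 : ℝ) - n0 := by
    have : (n0 : ℝ) ≤ n1 := by exact_mod_cast hle
    linarith
  have h10 : 10 * (E : ℝ) * ((n1 : ℝ) - n0) ≤ n0 / 6 := by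
    have h1 : 10 * (E : ℝ) * ((n1 : ℝ) - n0) ≤ 10 * (m * 2 ^ (t - 1)) * ((n1 : ℝ) - n0) :=
      mul_le_mul_of_nonneg_right (by linarith) hd0
    rw [h2t] at hδ
    have h0 : (0 : ℝ) ≤ n0 := by positivity
    nlinarith
  -- `n₀`
  have hn0m : m ^ 2 < n0 := by
    have h1 : q ⟨0, ht⟩ false ∣ n0 := Finset.dvd_prod_of_mem _ (Finset.mem_univ _)
    have h2 : 0 < n0 := Finset.prod_pos fun l _ => (hq l false).1.pos
    exact lt_of_lt_of_le (hq ⟨0, ht⟩ false).2 (Nat.le_of_dvd h2 h1)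
  have hn0r : (m : ℝ) ^ 2 ≤ n0 := by exact_mod_cast hn0m.le
  -- logarithms
  obtain ⟨hal, hal0⟩ := nb_al
  set a := Real.log al with ha
  have hl2 := Real.log_two_gt_d9
  have ha0 : 0 < a := by linarith
  have hU : 0 < UU E (n1 - n0) := by
    rw [UU]
    have : (0 : ℝ) < E := by linarith
    positivity
  have hlog := Real.log_le_log (by positivity) hB
  rw [Real.log_pow, Real.log_mul (by norm_num) (by positivity), Real.log_pow] at hlog
  have hlU : Real.log (UU E (n1 - n0)) = Real.log 4 + E * Real.log 16 +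
      (2 * E + 1) * Real.log (8 * E) + 5 * E * ((n1 : ℝ) - n0) * a := by
    have hE0 : (0 : ℝ) < E := by linarith
    rw [UU, Real.log_mul (by positivity) (by positivity),
      Real.log_mul (by positivity) (by positivity), Real.log_mul (by positivity) (by positivity),
      Real.log_pow, Real.log_pow, Real.log_pow]
    push_cast
    rw [hδ']
  rw [hlU] at hlog
  have l2' := Real.log_two_lt_d9
  have l4 : Real.log 4 = 2 * Real.log 2 := by
    rw [show (4 : ℝ) = 2 ^ 2 by norm_num, Real.log_pow]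
    norm_num
  have l16 : Real.log 16 = 4 * Real.log 2 := by
    rw [show (16 : ℝ) = 2 ^ 4 by norm_num, Real.log_pow]
    norm_num
  have l3 : Real.log 3 ≤ 2 * Real.log 2 := by
    rw [← l4]
    exact Real.log_le_log (by norm_num) (by norm_num)
  have hfin := nb_fin m (2 ^ (t - 1)) E (one_le_pow₀ (by norm_num)) (by
    have h1 : (2000 * (2 ^ t) ^ 3 : ℝ) ≤ m := by exact_mod_cast hm
    have h2 : ((2 : ℝ) ^ (t - 1)) ^ 3 ≤ (2 ^ t) ^ 3 := by
      apply pow_le_pow_left₀ (by positivity)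
      exact pow_le_pow_right₀ (by norm_num) (by omega)
    linarith) hEr1 hEr
  have h11 : 10 * (E : ℝ) * ((n1 : ℝ) - n0) * a ≤ n0 / 6 * a :=
    mul_le_mul_of_nonneg_right h10 ha0.le
  push_cast at hlog
  have h12 : 127 / 100 * (m : ℝ) ^ 2 ≤ 11 / 6 * n0 * a := by
    have h13 : 127 / 100 ≤ 11 / 6 * a := by linarith
    have h0 : (0 : ℝ) ≤ n0 := by positivity
    calc 127 / 100 * (m : ℝ) ^ 2 ≤ 127 / 100 * n0 := by linarith
      _ ≤ 11 / 6 * a * n0 := mul_le_mul_of_nonneg_right h13 h0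
      _ = 11 / 6 * n0 * a := by ring
  have h14 : (E : ℝ) * Real.log 16 ≤ 3 * E := by
    rw [l16]
    nlinarith
  rw [l4] at hlog
  nlinarith

end Pool.Agent.H30.PL
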